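import Pool.Agent.H64.GRID.Main

/-!
# Realizations of the grid order types: exponential growth of the diameter

Problem MP_cca62e_co. Let `m, n ≥ 4`. A realization is a projective image of the grid. For integer
distances the points stay distinct modulo every odd prime not dividing `16 S₀ S₁ S₂ S₃` (four
doubled triangle areas), and a set of points of `F_p ²` all of whose squared distances are squares
has at most `p` points (one on each line in a direction of nonsquare length). So every odd prime
`p < m n` divides this integer, which is at most `9 D ^ 8`.
-/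

set_option autoImplicit false

namespace Pool.Agent.Results.MP_cca62e_co.DiameterGrowth

open Pool.Grid

theorem result :
    (∀ m n : ℕ, 4 ≤ m → 4 ≤ n → ∀ f : Fin m × Fin n → EuclideanSpace ℝ (Fin 2),
      IsRealization f → IntegerDistances f →
        (primorial (m * n - 1) : ℝ) ≤ 18 * Metric.diam (Set.range f) ^ 8) ∧
    ∃ c : ℝ, 0 < c ∧ ∀ m n : ℕ, 4 ≤ m → 4 ≤ n →
      ∀ f : Fin m × Fin n → EuclideanSpace ℝ (Fin 2), IsRealization f → IntegerDistances f →
        Real.exp (c * (m * n)) ≤ Metric.diam (Set.range f) :=
  ⟨fun m n hm hn f hf hd => (main.2.2.1 m n hm hn f hf).2 hd, main.2.2.2⟩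

end Pool.Agent.Results.MP_cca62e_co.DiameterGrowth
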