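import Mathlib

/-!
# The order type of the 2 x 4 grid has an integer-distance realization
-/

namespace Pool.Agent.Results.MP_cca62e_co.GridTwoFour

/-- Twice the signed area of the triangle `a b c`, i.e. `det (b - a, c - a)`. -/
noncomputable def area (a b c : EuclideanSpace ℝ (Fin 2)) : ℝ :=
  (b 0 - a 0) * (c 1 - a 1) - (b 1 - a 1) * (c 0 - a 0)

/-- The point `(i, j)` of the grid `{0, …, m-1} × {0, …, n-1}`. -/
noncomputable def gridPoint {m n : ℕ} (p : Fin m × Fin n) : EuclideanSpace ℝ (Fin 2) :=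
  !₂[((p.1 : ℕ) : ℝ), ((p.2 : ℕ) : ℝ)]

/-- `GRID(m,n)` has an integer-distance realization: an injective map `f` from the grid to the
plane preserving the orientation (counterclockwise, clockwise, collinear) of every ordered triple,
such that all distances between points of the image are integers. -/
def HasIntegerRealization (m n : ℕ) : Prop :=
  ∃ f : Fin m × Fin n → EuclideanSpace ℝ (Fin 2), Function.Injective f ∧
    (∀ a b c, SignType.sign (area (f a) (f b) (f c)) =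
      SignType.sign (area (gridPoint a) (gridPoint b) (gridPoint c))) ∧
    ∀ a b, ∃ k : ℤ, dist (f a) (f b) = k

/-- First coordinates of the two lines. -/
def X : Fin 2 → ℤ := ![0, 5040]

/-- Second coordinates of the four points on each of the two lines. -/
def Y : Fin 4 → ℤ := ![0, 7644, 8778, 16422]

/-- Distances. -/
def D : Fin 2 × Fin 4 → Fin 2 × Fin 4 → ℤ := fun a b =>
  if a.1 = b.1 then |Y a.2 - Y b.2| else
    (![![5040, 9156, 10122, 17178],
       ![9156, 5040, 5166, 10122],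
       ![10122, 5166, 5040, 9156],
       ![17178, 10122, 9156, 5040]] : Fin 4 → Fin 4 → ℤ) a.2 b.2

/-- The realization. -/
noncomputable def f (p : Fin 2 × Fin 4) : EuclideanSpace ℝ (Fin 2) :=
  !₂[((X p.1 : ℤ) : ℝ), ((Y p.2 : ℤ) : ℝ)]

theorem D_sq : ∀ a b, (X a.1 - X b.1) ^ 2 + (Y a.2 - Y b.2) ^ 2 = D a b ^ 2 ∧ 0 ≤ D a b := by
  decide

theorem sgn : ∀ a b c : Fin 2 × Fin 4,
    SignType.sign ((X b.1 - X a.1) * (Y c.2 - Y a.2) - (Y b.2 - Y a.2) * (X c.1 - X a.1)) =
    SignType.sign ((((b.1 : ℕ) : ℤ) - ((a.1 : ℕ) : ℤ)) * (((c.2 : ℕ) : ℤ) - ((a.2 : ℕ) : ℤ)) -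
      (((b.2 : ℕ) : ℤ) - ((a.2 : ℕ) : ℤ)) * (((c.1 : ℕ) : ℤ) - ((a.1 : ℕ) : ℤ))) := by
  decide

theorem sign_cast (z : ℤ) : SignType.sign (z : ℝ) = SignType.sign z := by
  rcases lt_trichotomy z 0 with h | h | h
  · rw [sign_neg h, sign_neg (by exact_mod_cast h)]
  · subst h; simp
  · rw [sign_pos h, sign_pos (by exact_mod_cast h)]

theorem result : HasIntegerRealization 2 4 := by
  refine ⟨f, ?_, ?_, ?_⟩
  · intro a b hab
    have h0 : (X a.1 : ℝ) = X b.1 := by
      have := congrArg (fun v => v 0) hab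
      simpa [f] using this
    have h1 : (Y a.2 : ℝ) = Y b.2 := by
      have := congrArg (fun v => v 1) hab
      simpa [f] using this
    have h0' : X a.1 = X b.1 := by exact_mod_cast h0
    have h1' : Y a.2 = Y b.2 := by exact_mod_cast h1
    have key : ∀ a b : Fin 2 × Fin 4, X a.1 = X b.1 → Y a.2 = Y b.2 → a = b := by decide
    exact key a b h0' h1'
  · intro a b c
    have e1 : area (f a) (f b) (f c) =
        (((X b.1 - X a.1) * (Y c.2 - Y a.2) - (Y b.2 - Y a.2) * (X c.1 - X a.1) : ℤ) : ℝ) := by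
      simp [area, f]
    have e2 : area (gridPoint a) (gridPoint b) (gridPoint c) =
        (((((b.1 : ℕ) : ℤ) - ((a.1 : ℕ) : ℤ)) * (((c.2 : ℕ) : ℤ) - ((a.2 : ℕ) : ℤ)) -
      (((b.2 : ℕ) : ℤ) - ((a.2 : ℕ) : ℤ)) * (((c.1 : ℕ) : ℤ) - ((a.1 : ℕ) : ℤ)) : ℤ) : ℝ) := by
      simp [area, gridPoint]
    rw [e1, e2, sign_cast, sign_cast, sgn a b c]
  · intro a b
    refine ⟨D a b, ?_⟩
    obtain ⟨h1, h2⟩ := D_sq a b
    rw [EuclideanSpace.dist_eq]
    have h1' : ((X a.1 : ℝ) - X b.1) ^ 2 + ((Y a.2 : ℝ) - Y b.2) ^ 2 = (D a b : ℝ) ^ 2 := by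
      exact_mod_cast h1
    have h2' : (0 : ℝ) ≤ D a b := by exact_mod_cast h2
    rw [← Real.sqrt_sq h2', ← h1']
    congr 1
    simp [f, Real.dist_eq, sq_abs]

end Pool.Agent.Results.MP_cca62e_co.GridTwoFour
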