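import Pool.Agent.H64.GRID.Main

/-!
# Realizations of the grid order types: an equivalent Diophantine system

Problem MP_cca62e_co. Let `m, n ≥ 4`. The collinearities of a `4 × 4` block of the grid force the
block to be a projective image of the grid (four unknowns on the two middle rows, each of the four
corners gives one equation: `AD = B`, `BC = A`, `BC = D`, `AD = C`, so `A = B = C = D = 1`), and
this extends to the whole grid. So a realization is `v ↦ N v / (1 + lam i + mu j)` up to a
translation, and for integer distances `lam`, `mu` and the form `|N x|²` can be taken rational.
-/

set_option autoImplicit false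

namespace Pool.Agent.Results.MP_cca62e_co.RationalSystem

open Pool.Grid

theorem result :
    (∀ m n : ℕ, 4 ≤ m → 4 ≤ n → (HasIntegerRealization m n ↔ System m n)) ∧
    ∀ m n : ℕ, System m n → HasIntegerRealization m n :=
  ⟨fun m n hm hn => ⟨main.2.1 m n hm hn, main.1 m n⟩, main.1⟩

end Pool.Agent.Results.MP_cca62e_co.RationalSystem
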